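import Pool.Agent.Helper67.NO.St5

/-!
Project NO (MP_26be5b_ag, helper67), module DOR: nilpotent orbits and their scaling.
-/

set_option autoImplicit false

namespace Pool.Agent.Helper64.NO
open Pool.Agent.Helper67.NO
open Matrix
open scoped Matrix.Norms.Frobenius ContDiff Topology

universe u

/-- an eigenvector of a matrix is an eigenvector of its exponential -/
private theorem exp_mulVec_eig {n : Type} [Fintype n] [DecidableEq n] (Z : Matrix n n ℂ)
    (v : n → ℂ) (s : ℂ) (h : Z *ᵥ v = s • v) :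
    NormedSpace.exp Z *ᵥ v = Complex.exp s • v := by
  have hp : ∀ k : ℕ, Z ^ k *ᵥ v = s ^ k • v := by
    intro k
    induction k with
    | zero => simp
    | succ k ih =>
      rw [pow_succ', ← Matrix.mulVec_mulVec, ih, Matrix.mulVec_smul, h, smul_smul, pow_succ]
  have h1 : HasSum (fun k : ℕ => ((k.factorial : ℂ)⁻¹) • Z ^ k) (NormedSpace.exp Z) :=
    NormedSpace.exp_series_hasSum_exp' Z
  let L : Matrix n n ℂ →ₗ[ℂ] (n → ℂ) :=
    { toFun := fun M => M *ᵥ v
      map_add' := fun M N => Matrix.add_mulVec M N v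
      map_smul' := fun c M => Matrix.smul_mulVec c M v }
  have hL : Continuous L := LinearMap.continuous_of_finiteDimensional L
  have h2 : HasSum (fun k : ℕ => L (((k.factorial : ℂ)⁻¹) • Z ^ k)) (L (NormedSpace.exp Z)) :=
    h1.map L hL
  have h3 : HasSum (fun k : ℕ => ((k.factorial : ℂ)⁻¹) • s ^ k) (Complex.exp s) := by
    rw [Complex.exp_eq_exp_ℂ]
    exact NormedSpace.exp_series_hasSum_exp' s
  have h4 : HasSum (fun k : ℕ => (((k.factorial : ℂ)⁻¹) • s ^ k) • v) (Complex.exp s • v) :=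
    h3.smul_const v
  have h5 : (fun k : ℕ => L (((k.factorial : ℂ)⁻¹) • Z ^ k)) =
      fun k : ℕ => (((k.factorial : ℂ)⁻¹) • s ^ k) • v := by
    funext k
    rw [map_smul]
    change ((k.factorial : ℂ)⁻¹) • (Z ^ k *ᵥ v) = _
    rw [hp, smul_smul, smul_eq_mul]
  rw [h5] at h2
  exact h2.unique h4

/-- the elements of the orbit are conjugate as matrices -/
private theorem orb_conj (h1 : StDAD.{u}) {n : Type} [Fintype n] [DecidableEq n] {g : Type u}
    [LieRing g] [LieAlgebra ℂ g] [FiniteDimensional ℂ g] (b : Module.Basis n ℂ g) (x₀ x : g)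
    (hx : Orb x₀ x) : ∃ v : Matrix n n ℂ, IsUnit v ∧ adM b x = v * adM b x₀ * v⁻¹ := by
  induction hx with
  | base => exact ⟨1, isUnit_one, by rw [inv_one, one_mul, mul_one]⟩
  | step y x hy ih =>
    obtain ⟨v, hv, e⟩ := ih
    refine ⟨NormedSpace.exp (adM b x) * v, (Matrix.isUnit_exp _).mul hv, ?_⟩
    rw [(h1 n g b).2.2.2.1 x y, e, Matrix.mul_inv_rev, Matrix.exp_neg]
    simp only [Matrix.mul_assoc]

theorem pDOR (h1 : StDAD.{u}) (h2 : StCBS.{u}) (h3 : StHPR) : StDOR.{u} := by
  intro n _ _ g _ _ _ _ b hL x₀ hx₀ hnil x hx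
  have hinj : Function.Injective (adM b) := (h1 n g b).2.1 inferInstance
  obtain ⟨v, hv, e⟩ := orb_conj h1 b x₀ x hx
  refine ⟨⟨v, hv, e⟩, ?_, ?_⟩
  · intro hx0
    apply hx₀
    apply hinj
    rw [hx0, map_zero] at e
    rw [map_zero]
    have h4 : v⁻¹ * (v * adM b x₀ * v⁻¹) * v = adM b x₀ := by
      have hdet : IsUnit v.det := (Matrix.isUnit_iff_isUnit_det v).1 hv
      rw [Matrix.mul_assoc v, ← Matrix.mul_assoc v⁻¹ v, Matrix.nonsing_inv_mul v hdet,
        Matrix.one_mul, Matrix.mul_assoc, Matrix.nonsing_inv_mul v hdet, Matrix.mul_one]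
    rw [← h4, ← e, Matrix.mul_zero, Matrix.zero_mul]
  · intro c hc
    -- nilpotency of `adM b x`
    have hn : IsNilpotent (adM b x) := by
      obtain ⟨k, hk⟩ := (h1 n g b).2.2.2.2.1 x₀ hnil
      have hdet : IsUnit v.det := (Matrix.isUnit_iff_isUnit_det v).1 hv
      have hpow : ∀ m : ℕ, (v * adM b x₀ * v⁻¹) ^ m = v * adM b x₀ ^ m * v⁻¹ := by
        intro m
        induction m with
        | zero => rw [pow_zero, pow_zero, Matrix.mul_one, Matrix.mul_nonsing_inv v hdet]
        | succ m ih =>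
          rw [pow_succ, ih, pow_succ]
          calc v * adM b x₀ ^ m * v⁻¹ * (v * adM b x₀ * v⁻¹)
              = v * adM b x₀ ^ m * (v⁻¹ * v) * adM b x₀ * v⁻¹ := by
                simp only [Matrix.mul_assoc]
            _ = v * (adM b x₀ ^ m * adM b x₀) * v⁻¹ := by
                rw [Matrix.nonsing_inv_mul v hdet, Matrix.mul_one]
                simp only [Matrix.mul_assoc]
      exact ⟨k, by rw [e, hpow, hk, Matrix.mul_zero, Matrix.zero_mul]⟩
    obtain ⟨hm, hmL, hbr⟩ := h3 n (LinearMap.range (adM b)) hL.lie hL.star (adM b x)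
      ⟨x, rfl⟩ hn
    obtain ⟨h, rfl⟩ := hmL
    have hlie : ⁅h, x⁆ = x := by
      apply hinj
      rw [← (h2 n g b).1 h x, hbr]
    have hexp : expAd (Complex.log c • h) x = c • x := by
      apply b.repr.injective
      apply Finsupp.ext
      intro i
      have e1 : b.repr (expAd (Complex.log c • h) x) i =
          (LinearMap.toMatrix b b (expAd (Complex.log c • h)) *ᵥ (b.repr x)) i := by
        rw [LinearMap.toMatrix_mulVec_repr]
      have e2 : adM b (Complex.log c • h) *ᵥ (b.repr x) = Complex.log c • (b.repr x : n → ℂ) := by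
        have e3 : LinearMap.toMatrix b b (LieAlgebra.ad ℂ g (Complex.log c • h)) *ᵥ (b.repr x) =
            b.repr ((LieAlgebra.ad ℂ g (Complex.log c • h)) x) :=
          LinearMap.toMatrix_mulVec_repr b b _ x
        have e4 : (LieAlgebra.ad ℂ g (Complex.log c • h)) x = Complex.log c • x := by
          rw [LieAlgebra.ad_apply, smul_lie, hlie]
        rw [e4] at e3
        have e5 : adM b (Complex.log c • h) *ᵥ (b.repr x) = ⇑(b.repr (Complex.log c • x)) := e3
        rw [e5, map_smul]
        rfl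
      rw [e1, (h1 n g b).2.2.1, exp_mulVec_eig _ _ _ e2, Complex.exp_log hc, map_smul]
      rfl
    rw [← hexp]
    exact Orb.step x _ hx

end Pool.Agent.Helper64.NO
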