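import Pool.Agent.Helper67.NO.St2

/-!
Project NO (MP_26be5b_ag, helper67), module HOR: existence of horizontal lifts.
-/

set_option autoImplicit false

namespace Pool.Agent.Helper64.NO
open Pool.Agent.Helper67.NO
open Matrix
open scoped Matrix.Norms.Frobenius ContDiff Topology

/-- the complex linear part of the derivative of the moment map -/
private def mm {n : Type} [Fintype n] (a b x : Matrix n n ℂ) : Matrix n n ℂ :=
  br (br x a) aᴴ + br (br x b) bᴴ

private theorem mm_add {n : Type} [Fintype n] (a b x y : Matrix n n ℂ) :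
    mm a b (x + y) = mm a b x + mm a b y := by
  unfold mm br
  noncomm_ring

private theorem mm_sub {n : Type} [Fintype n] (a b x y : Matrix n n ℂ) :
    mm a b (x - y) = mm a b x - mm a b y := by
  unfold mm br
  noncomm_ring

private theorem mm_smul {n : Type} [Fintype n] (c : ℂ) (a b x : Matrix n n ℂ) :
    mm a b (c • x) = c • mm a b x := by
  unfold mm br
  simp only [Matrix.smul_mul, Matrix.mul_smul, smul_sub, smul_add, Matrix.sub_mul, Matrix.mul_sub]

private theorem mm_star {n : Type} [Fintype n] (a b x : Matrix n n ℂ) :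
    (mm a b x)ᴴ = mm a b xᴴ + br (mom a b) xᴴ := by
  unfold mm mom br
  simp only [conjTranspose_add, conjTranspose_sub, conjTranspose_mul, conjTranspose_conjTranspose]
  noncomm_ring

private theorem low_sub {ι κ : Type} [Fintype ι] [DecidableEq ι] [Fintype κ] [DecidableEq κ]
    (lev : κ → ℕ) (x y : Matrix (ι ⊕ κ) (ι ⊕ κ) ℂ) (hx : Low lev x) (hy : Low lev y) :
    Low lev (x - y) := by
  intro p q h
  by_cases h1 : x p q = 0
  · apply hy p q
    intro h2
    apply h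
    rw [Matrix.sub_apply, h1, h2, sub_zero]
  · exact hx p q h1

private theorem rai_sub {ι κ : Type} [Fintype ι] [DecidableEq ι] [Fintype κ] [DecidableEq κ]
    (lev : κ → ℕ) (x y : Matrix (ι ⊕ κ) (ι ⊕ κ) ℂ) (hx : Rai lev x) (hy : Rai lev y) :
    Rai lev (x - y) := by
  intro p q h
  by_cases h1 : x p q = 0
  · apply hy p q
    intro h2
    apply h
    rw [Matrix.sub_apply, h1, h2, sub_zero]
  · exact hx p q h1

private theorem blocks_bd {ι κ : Type} [Fintype ι] [DecidableEq ι] [Fintype κ] [DecidableEq κ]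
    (x : Matrix ι ι ℂ) (y : Matrix κ κ ℂ) : (bd x y).toBlocks₂₂ = y := by
  unfold bd
  exact toBlocks_fromBlocks₂₂ _ _ _ _

theorem pHOR (h1 : StBL) (h2 : StLVL) (h3 : StBDA) (h4 : StALG) (h5 : StGEN) : StHOR := by
  intro ι κ _ _ _ _ lev H a b ha hb hst hmom
  obtain ⟨-, -, -, hbl4, hbl5, -, -, hbl8⟩ := h1 ι κ lev
  obtain ⟨-, hl0, hladd, hlsmul, hlneg, -⟩ := h2 κ lev
  obtain ⟨hbd1, hbd2, hbd3, hbd4, hbd5, hbd6, -⟩ := h3 ι κ
  obtain ⟨-, alg2, -, alg4, -, -, -, -, alg9⟩ := h4 (ι ⊕ κ)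
  obtain ⟨-, gen2⟩ := h5 ι κ lev a b hb hst
  -- the shape of `m (bd X η)`
  have shape : ∀ (X : Matrix ι ι ℂ) (η : Matrix κ κ ℂ), Lvl lev η →
      ∃ h y, Lvl lev y ∧ mm a b (bd X η) = bd h y := by
    intro X η hη
    have hv : Low lev (br (bd X η) a) :=
      low_sub lev _ _ (hbl4 a ha X η hη).1 (hbl4 a ha X η hη).2
    have hw : Rai lev (br (bd X η) b) :=
      rai_sub lev _ _ (hbl5 b hb X η hη).1 (hbl5 b hb X η hη).2
    exact (hbl8 a b _ _ ha hb hv hw).1
  -- injectivity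
  have inj : ∀ (η : Matrix κ κ ℂ) (h : Matrix ι ι ℂ), mm a b (bd 0 η) = bd h 0 → η = 0 := by
    intro η h hm
    have e1 : ip (br (bd 0 η) a) (br (bd 0 η) b) (br (bd 0 η) a) (br (bd 0 η) b) = 0 := by
      rw [alg2]
      change trace ((bd 0 η)ᴴ * mm a b (bd 0 η)) = 0
      rw [hm, (hbd2 0 η).1, (hbd1 _ _ _ _).1, conjTranspose_zero, Matrix.zero_mul, Matrix.mul_zero,
        hbd5, trace_zero]
    have e2 : nsq (br (bd 0 η) a) (br (bd 0 η) b) = 0 := by
      rw [alg4] at e1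
      exact_mod_cast e1
    exact gen2 η (alg9 _ _ e2).2
  -- the space of level preserving matrices
  let L : Submodule ℂ (Matrix κ κ ℂ) :=
    { carrier := {y | Lvl lev y}
      add_mem' := fun {x y} hx hy => (hladd x y hx hy).1
      zero_mem' := hl0
      smul_mem' := fun c x hx => hlsmul c x hx }
  have hLmem : ∀ y : Matrix κ κ ℂ, y ∈ L ↔ Lvl lev y := fun y => Iff.rfl
  have hbd0add : ∀ y y' : Matrix κ κ ℂ, bd (0 : Matrix ι ι ℂ) (y + y') = bd 0 y + bd 0 y' := by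
    intro y y'
    rw [(hbd1 0 0 y y').2.1, add_zero]
  have hbd0smul : ∀ (c : ℂ) (y : Matrix κ κ ℂ), bd (0 : Matrix ι ι ℂ) (c • y) = c • bd 0 y := by
    intro c y
    rw [hbd3, smul_zero]
  let T : L →ₗ[ℂ] L :=
    { toFun := fun y => ⟨(mm a b (bd 0 y.1)).toBlocks₂₂, by
        obtain ⟨h, z, hz, e⟩ := shape 0 y.1 y.2
        rw [hLmem, e, blocks_bd]
        exact hz⟩
      map_add' := by
        intro x y
        apply Subtype.ext
        change (mm a b (bd 0 (x.1 + y.1))).toBlocks₂₂ =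
          (mm a b (bd 0 x.1)).toBlocks₂₂ + (mm a b (bd 0 y.1)).toBlocks₂₂
        rw [hbd0add, mm_add]
        rfl
      map_smul' := by
        intro c x
        apply Subtype.ext
        change (mm a b (bd 0 (c • x.1))).toBlocks₂₂ = c • (mm a b (bd 0 x.1)).toBlocks₂₂
        rw [hbd0smul, mm_smul]
        rfl }
  have hTinj : Function.Injective T := by
    rw [injective_iff_map_eq_zero]
    intro y hy
    have hy' : (mm a b (bd 0 y.1)).toBlocks₂₂ = 0 := congrArg Subtype.val hy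
    obtain ⟨h, z, hz, e⟩ := shape 0 y.1 y.2
    rw [e, blocks_bd] at hy'
    rw [hy'] at e
    exact Subtype.ext (inj y.1 h e)
  have hTsurj : Function.Surjective T := LinearMap.injective_iff_surjective.1 hTinj
  -- existence
  have hex : ∀ X : Matrix ι ι ℂ, ∃ η : Matrix κ κ ℂ, Lvl lev η ∧
      ∃ h : Matrix ι ι ℂ, mm a b (bd X η) = bd h 0 := by
    intro X
    obtain ⟨g, z, hz, e⟩ := shape X 0 hl0
    obtain ⟨η, hη⟩ := hTsurj ⟨-z, (hlneg z hz).1⟩
    have hη' : (mm a b (bd 0 η.1)).toBlocks₂₂ = -z := congrArg Subtype.val hη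
    obtain ⟨g', z', hz', e'⟩ := shape 0 η.1 η.2
    rw [e', blocks_bd] at hη'
    refine ⟨η.1, η.2, g + g', ?_⟩
    have e3 : bd X η.1 = bd X 0 + bd 0 η.1 := by
      rw [(hbd1 X 0 0 η.1).2.1, add_zero, zero_add]
    rw [e3, mm_add, e, e', hη', (hbd1 g g' z (-z)).2.1, add_neg_cancel]
  choose θ hθl hθ using hex
  have huniq : ∀ (X : Matrix ι ι ℂ) (η : Matrix κ κ ℂ), Lvl lev η →
      (∃ h : Matrix ι ι ℂ, mm a b (bd X η) = bd h 0) → η = θ X := by
    intro X η hη hh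
    obtain ⟨h, e⟩ := hh
    obtain ⟨h', e'⟩ := hθ X
    have e3 : bd (0 : Matrix ι ι ℂ) (η - θ X) = bd X η - bd X (θ X) := by
      rw [(hbd1 X X η (θ X)).2.2.1, sub_self]
    have e4 : mm a b (bd 0 (η - θ X)) = bd (h - h') 0 := by
      rw [e3, mm_sub, e, e', (hbd1 h h' 0 0).2.2.1, sub_self]
    exact sub_eq_zero.1 (inj _ _ e4)
  refine ⟨θ, hθl, ?_, ?_, ?_, hθ, huniq⟩
  · intro X Y
    symm
    obtain ⟨h, e⟩ := hθ X
    obtain ⟨h', e'⟩ := hθ Y
    refine huniq _ _ (hladd _ _ (hθl X) (hθl Y)).1 ⟨h + h', ?_⟩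
    rw [← (hbd1 X Y (θ X) (θ Y)).2.1, mm_add, e, e', (hbd1 h h' 0 0).2.1, add_zero]
  · intro c X
    symm
    obtain ⟨h, e⟩ := hθ X
    refine huniq _ _ (hlsmul c _ (hθl X)) ⟨c • h, ?_⟩
    rw [← hbd3, mm_smul, e, hbd3, smul_zero]
  · intro X
    symm
    obtain ⟨h, e⟩ := hθ X
    refine huniq _ _ (hlneg _ (hθl X)).2.1 ⟨hᴴ - br H Xᴴ, ?_⟩
    have e1 := mm_star a b (bd X (θ X))
    rw [e, hmom, (hbd2 h 0).1, (hbd2 X (θ X)).1, (hbd1 H Xᴴ 0 (θ X)ᴴ).2.2.2] at e1
    have e2 : br (0 : Matrix κ κ ℂ) (θ X)ᴴ = 0 := by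
      unfold br
      rw [Matrix.zero_mul, Matrix.mul_zero, sub_zero]
    rw [e2, conjTranspose_zero] at e1
    rw [eq_sub_of_add_eq e1.symm, (hbd1 hᴴ (br H Xᴴ) 0 0).2.2.1, sub_zero]

end Pool.Agent.Helper64.NO
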